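import Mathlib
import Pool.Agent.H.MP_04d7a1_pr.A

namespace Pool.Agent.Results.MP_04d7a1_pr.Subcritical

open MeasureTheory ProbabilityTheory Relation Pool.Agent.H.MP_04d7a1_pr
open scoped ENNReal NNReal

/-- the four unit vectors -/
def dir : Fin 4 → ℤ × ℤ := ![(1, 0), (-1, 0), (0, 1), (0, -1)]

/-- the union of the rays; `ω x` holds the number of rays at `x` and their directions and lengths -/
def occ (ω : ℤ × ℤ → ℕ × (ℕ → Fin 4 × ℕ)) : Set (ℤ × ℤ) :=
  {z | ∃ x, ∃ i < (ω x).1, ∃ t ≤ ((ω x).2 i).2, z = x + (t : ℤ) • dir ((ω x).2 i).1}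

/-- independent sites, Poisson many independent rays, uniform direction, length of law `μ` -/
noncomputable def law (l : ℝ≥0) (μ : Measure ℕ) : Measure (ℤ × ℤ → ℕ × (ℕ → Fin 4 × ℕ)) :=
  Measure.infinitePi fun _ =>
    (poissonMeasure l).prod (Measure.infinitePi fun _ => (uniformOn Set.univ).prod μ)

lemma mean (l : ℝ≥0) : ∫⁻ n, (n : ℝ≥0∞) ∂poissonMeasure l = l := by
  have : ∀ n : ℕ, ((n + 1 : ℕ) : ℝ≥0∞) * poissonMeasure l {n + 1} = l * poissonMeasure l {n} :=
    fun n => by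
      rw [poissonMeasure_singleton, poissonMeasure_singleton, ← ENNReal.ofReal_natCast,
        ← ENNReal.ofReal_coe_nnreal, ← ENNReal.ofReal_mul (by positivity),
        ← ENNReal.ofReal_mul (by positivity), Nat.factorial_succ]
      congr 1
      push_cast
      field_simp
      ring
  have h : ∑' n, poissonMeasure l {n} = 1 := by
    simpa using (lintegral_countable' (μ := poissonMeasure l) fun _ => 1).symm
  rw [lintegral_countable', tsum_eq_zero_add' ENNReal.summable]
  simp only [this, ENNReal.tsum_mul_left, Nat.cast_zero, zero_mul, zero_add, h, mul_one]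

def big (n : ℕ) : Set (ℕ × (ℕ → Fin 4 × ℕ)) := {z | ∃ i < z.1, n ≤ (z.2 i).2}

lemma P_big (l : ℝ≥0) (μ : Measure ℕ) [IsProbabilityMeasure μ] (n : ℕ) :
    ((poissonMeasure l).prod (Measure.infinitePi fun _ => (uniformOn Set.univ).prod μ)) (big n) ≤
      l * μ (Set.Ici n) := by
  rw [Measure.prod_apply (by unfold big; measurability), ← mean,
    ← lintegral_mul_const _ (measurable_of_countable _)]
  refine lintegral_mono fun m => ?_
  have : Prod.mk m ⁻¹' big n = ⋃ i ∈ Finset.range m,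
      (Prod.snd ∘ Function.eval i) ⁻¹' Set.Ici n := by ext; simp [big]
  rw [this]
  refine (measure_biUnion_finset_le _ _).trans (le_of_eq ?_)
  rw [Finset.sum_congr rfl fun i _ => (measurePreserving_snd.comp
    (measurePreserving_eval_infinitePi _ i)).measure_preimage
      (MeasurableSet.nullMeasurableSet .of_discrete)]
  simp

noncomputable def ν : Measure ℕ :=
  Measure.sum fun j : ℕ => ((j + 1 : ℝ≥0∞)⁻¹ * (100⁻¹) ^ j) • Measure.dirac (10 ^ j)

lemma ν_int (f : ℕ → ℝ≥0∞) :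
    ∫⁻ L, f L ∂ν = ∑' j : ℕ, (j + 1 : ℝ≥0∞)⁻¹ * (100⁻¹) ^ j * f (10 ^ j) := by
  simp [ν, lintegral_sum_measure]

lemma ν_tail (k : ℕ) :
    10 ^ k * ∫⁻ L, (if 10 ^ k ≤ L then L else 0 : ℝ≥0∞) ∂ν ≤ 2 * (k + 1 : ℝ≥0∞)⁻¹ := by
  rw [ν_int, ← ENNReal.summable.sum_add_tsum_nat_add' (k := k), Finset.sum_eq_zero fun j hj => by
    rw [if_neg (not_le.2 (Nat.pow_lt_pow_right (by norm_num) (Finset.mem_range.1 hj))), mul_zero],
    zero_add, ← ENNReal.tsum_mul_left, ← ENNReal.tsum_geometric_two, ← ENNReal.tsum_mul_right]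
  refine ENNReal.tsum_le_tsum fun j => ?_
  have h1 : (100⁻¹ * 10 * 10 : ℝ≥0∞) = 1 := by
    rw [mul_assoc]; norm_num; exact ENNReal.inv_mul_cancel (by simp) (by simp)
  have h2 : (100⁻¹ * 10 : ℝ≥0∞) ≤ 2⁻¹ := by
    rw [ENNReal.le_inv_iff_mul_le, ← h1]; gcongr; norm_num
  rw [if_pos (Nat.pow_le_pow_right (by norm_num) (by omega))]
  calc _ = (100⁻¹ * 10) ^ j * (100⁻¹ * 10 * 10) ^ k * ((j + k : ℕ) + 1 : ℝ≥0∞)⁻¹ := by
        simp only [mul_pow]; push_cast; ring
    _ ≤ _ := by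
        rw [h1, one_pow, mul_one]
        gcongr
        omega

theorem result : ∃ μ : Measure ℕ, IsProbabilityMeasure μ ∧
    ∫⁻ L, (L + 1 : ℝ≥0∞) ^ 2 ∂μ = ∞ ∧ ∃ l₀ : ℝ≥0, 0 < l₀ ∧ ∀ l ≤ l₀,
      law l μ {ω | ∃ a, {b | ReflTransGen (fun p q => p ∈ occ ω ∧ q ∈ occ ω ∧
        |p.1 - q.1| + |p.2 - q.2| = 1) a b}.Infinite} = 0 := by
  have u1 : 1 ≤ ν Set.univ := by
    rw [← lintegral_one, ν_int]
    exact le_trans (by simp) (ENNReal.le_tsum 0)
  have u2 : ν Set.univ ≠ ∞ := by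
    refine ne_top_of_le_ne_top (by simp) (le_trans ?_ (ν_tail 0))
    rw [← lintegral_one, ν_int, ν_int, pow_zero, one_mul]
    refine ENNReal.tsum_le_tsum fun j => ?_
    have : 1 ≤ 10 ^ j := Nat.one_le_pow _ _ (by norm_num)
    rw [if_pos (by simpa using this)]
    gcongr
    exact_mod_cast this
  have u3 : ν Set.univ ≠ 0 := (zero_lt_one.trans_le u1).ne'
  have hP : IsProbabilityMeasure ((ν Set.univ)⁻¹ • ν) :=
    ⟨by simpa using ENNReal.inv_mul_cancel u3 u2⟩
  refine ⟨_, hP, ?_, (32 * 61 ^ 2 * 41 ^ 4)⁻¹, by positivity, fun l hl => ?_⟩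
  · rw [lintegral_smul_measure, smul_eq_mul, ENNReal.mul_eq_top]
    refine Or.inl ⟨by simpa using u2, eq_top_iff.2 ?_⟩
    have : ∑' j : ℕ, (j + 1 : ℝ≥0∞)⁻¹ = ∞ := by
      by_contra h
      refine Real.not_summable_natCast_inv ((summable_nat_add_iff 1).1 ?_)
      simpa [ENNReal.toReal_add] using ENNReal.summable_toReal h
    rw [ν_int, ← this]
    refine ENNReal.tsum_le_tsum fun j => ?_
    calc _ = (j + 1 : ℝ≥0∞)⁻¹ * (100⁻¹ * 100) ^ j := by
          rw [ENNReal.inv_mul_cancel (by simp) (by simp), one_pow, mul_one]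
      _ = (j + 1 : ℝ≥0∞)⁻¹ * 100⁻¹ ^ j * ((10 ^ j : ℕ) : ℝ≥0∞) ^ 2 := by
          push_cast; rw [← pow_mul, mul_comm j, pow_mul]; norm_num; ring
      _ ≤ _ := by gcongr; exact le_self_add
  have le : ∀ n, ((ν Set.univ)⁻¹ • ν) (Set.Ici n) ≤ ∫⁻ L, (if n ≤ L then 1 else 0) ∂ν := fun n => by
    rw [Measure.smul_apply, smul_eq_mul, ← lintegral_indicator_one (s := Set.Ici n) .of_discrete]
    refine (mul_le_of_le_one_left' (ENNReal.inv_le_one.2 u1)).trans (le_of_eq ?_)
    simp [Set.indicator_apply]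
  generalize (ν Set.univ)⁻¹ • ν = μ at *
  have b := fun n => (P_big l μ n).trans (mul_le_mul_right (le n) _)
  have key := main ((poissonMeasure l).prod
    (Measure.infinitePi fun _ => (uniformOn Set.univ).prod μ)) (big := big) (l := l)
    (fun n => by unfold big; measurability) (fun m n h z ⟨i, h1, h2⟩ => ⟨i, h1, h.trans h2⟩)
    (by exact_mod_cast (mul_le_mul_right hl _).trans (mul_inv_cancel₀ (by positivity)).le)
    ((P_big l μ 0).trans (by rw [two_mul]; exact le_add_right (mul_le_of_le_one_right' prob_le_one)))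
    (fun k => ?_) fun k => ?_
  · refine measure_mono_null (fun ω ⟨a, ha⟩ => Set.mem_iUnion.2 ⟨a, ha.mono fun b hb => mo hb ?_⟩)
      (measure_iUnion_null key)
    have : ∀ p ∈ occ ω, cov big ω Set.univ p := by
      rintro _ ⟨x, i, h1, t, h2, rfl⟩
      refine ⟨x, trivial, ?_, i, h1, le_trans (le_of_eq ?_) h2⟩ <;>
        generalize ((ω x).2 i).1 = c <;> fin_cases c <;> simp [dir, d]
    refine fun p q h => ⟨this p h.1, this q h.2.1, ?_⟩
    have := h.2.2
    simp only [Int.abs_eq_natAbs] at this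
    unfold d
    omega
  · refine le_trans ?_ ((mul_le_mul_right (ν_tail k) l).trans (le_of_eq (by ring)))
    refine (mul_le_mul_right (b _) _).trans ?_
    rw [pow_two, mul_assoc, mul_left_comm _ (l : ℝ≥0∞), mul_left_comm,
      ← lintegral_const_mul _ (measurable_of_countable _)]
    gcongr with L
    split_ifs with h
    · rw [mul_one]; exact_mod_cast h
    · simp
  · refine le_trans ?_ ((mul_le_mul_right (ν_tail k) l).trans (le_of_eq (by ring)))
    refine (mul_le_mul_right (ENNReal.tsum_le_tsum fun n => b _) _).trans ?_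
    rw [ENNReal.tsum_mul_left, mul_left_comm,
      ← lintegral_tsum fun _ => (measurable_of_countable _).aemeasurable]
    gcongr with L
    have : 0 < 10 ^ k := by positivity
    split_ifs with h
    · rw [tsum_eq_sum (s := Finset.range L) fun n hn => if_neg (by simp at hn; omega)]
      exact (Finset.sum_le_card_nsmul _ _ 1 fun n _ => by split_ifs <;> simp).trans (by simp)
    · rw [tsum_congr fun n => if_neg (by omega)]; simp

end Pool.Agent.Results.MP_04d7a1_pr.Subcritical
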